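import Pool.Agent.H494R3.VR.B10

set_option autoImplicit false

/-!
# A functorial ring realization of all conical commutative monoids

For a conical commutative monoid `M` let `U(M)` be the `ℚ`-algebra generated by idempotents `e_m`
(`m ∈ M`, `e_0 = 0`) together with, for all `m, n`, a universal isomorphism between
`e_m ⊕ e_n` and `e_{m+n}`. The ring `Ψ(M)` is the kernel of the augmentation sending all
generators to zero. The class of `e_m` gives a natural isomorphism `M ≅ V(Ψ(M))`.
-/

open CategoryTheory in
open Pool.Agent.H494R3.VR in
/-- There is a functor `Ψ` from conical commutative monoids (with all monoid homomorphisms) to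
rings such that `V ∘ Ψ` is naturally isomorphic to the identity functor. -/
theorem Pool.Agent.Results.MP_85b181_al.Functorial.result :
    ∃ Ψ : ConMon ⥤ Rng, Nonempty (Ψ ⋙ Vfun ≅ 𝟭 ConMon) :=
  main
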